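import Mathlib

set_option autoImplicit false

namespace Pool.Agent.Run7.h781.BR

/-- the torsion elements of a finitely generated commutative group are finite in number -/
theorem fin_tors (G : Type) [CommGroup G] [Group.FG G] :
    {x : G | ∃ k : ℕ, k ≠ 0 ∧ x ^ k = 1}.Finite := by
  have h1 : Module.Finite ℤ (Additive G) := Module.Finite.iff_addGroup_fg.2 inferInstance
  have h2 : Finite (Submodule.torsion ℤ (Additive G)) :=
    Module.finite_of_fg_torsion _ Submodule.torsion_isTorsion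
  have h3 : {x : G | ∃ k : ℕ, k ≠ 0 ∧ x ^ k = 1} ⊆
      Set.range (fun t : Submodule.torsion ℤ (Additive G) => (t : Additive G).toMul) := by
    rintro x ⟨k, hk, hx⟩
    refine ⟨⟨Additive.ofMul x, ?_⟩, rfl⟩
    rw [Submodule.mem_torsion_iff]
    refine ⟨⟨(k : ℤ), mem_nonZeroDivisors_of_ne_zero (by exact_mod_cast hk)⟩, ?_⟩
    show (k : ℤ) • Additive.ofMul x = 0
    rw [natCast_zsmul, ← ofMul_pow, hx, ofMul_one]
  exact (Set.finite_range _).subset h3

/-- a finitely generated torsion-free commutative group is free -/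
theorem free_of (G : Type) [CommGroup G] [Group.FG G]
    (h : ∀ (x : G) (k : ℕ), k ≠ 0 → x ^ k = 1 → x = 1) :
    ∃ n : ℕ, Nonempty (G ≃* Multiplicative (Fin n → ℤ)) := by
  have h1 : Module.Finite ℤ (Additive G) := Module.Finite.iff_addGroup_fg.2 inferInstance
  have h2 : Module.IsTorsionFree ℤ (Additive G) := by
    refine Module.IsTorsionFree.of_smul_eq_zero fun r m hr => ?_
    by_contra hcon
    push Not at hcon
    obtain ⟨hr0, hm⟩ := hcon
    apply hm
    have h3 : (m.toMul) ^ r.natAbs = 1 := by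
      have h4 : (m.toMul) ^ r = 1 := by
        have := congrArg Additive.toMul hr
        simpa using this
      rcases Int.natAbs_eq r with e | e
      · rw [e, zpow_natCast] at h4
        exact h4
      · rw [e, zpow_neg, zpow_natCast, inv_eq_one] at h4
        exact h4
    have h5 := h m.toMul r.natAbs (Int.natAbs_ne_zero.2 hr0) h3
    exact congrArg Additive.ofMul h5
  have h3 : Module.Free ℤ (Additive G) := inferInstance
  let b := Module.finBasis ℤ (Additive G)
  refine ⟨Module.finrank ℤ (Additive G), ⟨?_⟩⟩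
  exact
    { toFun := fun x => Multiplicative.ofAdd (b.equivFun (Additive.ofMul x))
      invFun := fun y => (b.equivFun.symm y.toAdd).toMul
      left_inv := fun x => congrArg Additive.toMul (b.equivFun.symm_apply_apply (Additive.ofMul x))
      right_inv := fun y => congrArg Multiplicative.ofAdd (b.equivFun.apply_symm_apply y.toAdd)
      map_mul' := fun x y => by rw [ofMul_mul, map_add, ofAdd_add] }

theorem t_VA : ∀ (Λ : Type) [Group Λ], Group.FG Λ →
    (∀ g : Λ, g ≠ 1 → ∃ H : Subgroup Λ, H.index ≠ 0 ∧ g ∉ H) →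
    ∀ B : Subgroup Λ, B.index ≠ 0 → (∀ x ∈ B, ∀ y ∈ B, x * y = y * x) →
      ∃ (A : Subgroup Λ) (n : ℕ), A.Normal ∧ A.index ≠ 0 ∧
        Nonempty (A ≃* Multiplicative (Fin n → ℤ)) := by
  intro Λ _ hfg hrf B hB hc
  classical
  have hBf : B.FiniteIndex := ⟨hB⟩
  have hBfg : Group.FG B := inferInstance
  -- the torsion elements of `B`
  have hT : {x : Λ | x ∈ B ∧ ∃ k : ℕ, k ≠ 0 ∧ x ^ k = 1}.Finite := by
    let _ : CommGroup B := { (inferInstance : Group B) with
      mul_comm := fun a b => Subtype.ext (hc a a.2 b b.2) }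
    have h := fin_tors B
    refine (h.image (fun x : B => (x : Λ))).subset ?_
    rintro x ⟨hx, k, hk, hxk⟩
    exact ⟨⟨x, hx⟩, ⟨k, hk, Subtype.ext hxk⟩, rfl⟩
  have : Finite {x : Λ | x ∈ B ∧ ∃ k : ℕ, k ≠ 0 ∧ x ^ k = 1} := hT
  let f : {x : Λ | x ∈ B ∧ ∃ k : ℕ, k ≠ 0 ∧ x ^ k = 1} → Subgroup Λ := fun x =>
    if h : (x : Λ) ≠ 1 then (hrf x h).choose else ⊤
  have hf : ∀ x, (f x).index ≠ 0 := by
    intro x
    by_cases h : (x : Λ) ≠ 1
    · simp only [f, dif_pos h]
      exact (hrf x h).choose_spec.1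
    · simp only [f, dif_neg h]
      simp
  have hf2 : ∀ x : {x : Λ | x ∈ B ∧ ∃ k : ℕ, k ≠ 0 ∧ x ^ k = 1}, (x : Λ) ≠ 1 → (x : Λ) ∉ f x := by
    intro x h
    simp only [f, dif_pos h]
    exact (hrf x h).choose_spec.2
  have hI : (⨅ x, f x).index ≠ 0 := Subgroup.index_iInf_ne_zero hf
  have hJ : (B ⊓ ⨅ x, f x).index ≠ 0 := Subgroup.index_inf_ne_zero hB hI
  have hJf : (B ⊓ ⨅ x, f x).FiniteIndex := ⟨hJ⟩
  let A : Subgroup Λ := (B ⊓ ⨅ x, f x).normalCore
  have hAB : A ≤ B := (Subgroup.normalCore_le _).trans inf_le_left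
  have hAI : A ≤ ⨅ x, f x := (Subgroup.normalCore_le _).trans inf_le_right
  have hAf : A.FiniteIndex := inferInstance
  have hAfg : Group.FG A := inferInstance
  let _ : CommGroup A := { (inferInstance : Group A) with
    mul_comm := fun a b => Subtype.ext (hc a (hAB a.2) b (hAB b.2)) }
  obtain ⟨n, hn⟩ := free_of A (by
    intro x k hk hx
    by_contra hx1
    have hx2 : (x : Λ) ≠ 1 := fun h => hx1 (Subtype.ext h)
    have hxt : (x : Λ) ∈ {x : Λ | x ∈ B ∧ ∃ k : ℕ, k ≠ 0 ∧ x ^ k = 1} :=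
      ⟨hAB x.2, k, hk, congrArg Subtype.val hx⟩
    exact hf2 ⟨x, hxt⟩ hx2 ((Subgroup.mem_iInf.1 (hAI x.2)) ⟨x, hxt⟩))
  exact ⟨A, n, Subgroup.normalCore_normal _, hAf.index_ne_zero, hn⟩

end Pool.Agent.Run7.h781.BR
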